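import Pool.Agent.H43.TC.Targets2

/-! Second inequality at the corner (MP_183c3b_co). -/

set_option autoImplicit false

namespace Pool.Agent.H32.TE

open Pool.Agent.H43.TC Finset

theorem walks_le {G : Type} [AddCommGroup G] {k : ℕ} (s : Fin k → G) (c : G → Bool) (b : Bool) :
    ∀ (t : ℕ) (x : G), walks s c b t x ≤ if c x = b then (2 * k) ^ t else 0 := by
  intro t
  induction t with
  | zero => intro x; simp [walks]
  | succ t ih =>
    intro x
    rw [walks]
    by_cases hx : c x = b
    · rw [if_pos hx, if_pos hx]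
      have h1 : ∀ y, walks s c b t y ≤ (2 * k) ^ t := by
        intro y
        refine (ih y).trans ?_
        split_ifs
        · exact le_rfl
        · exact Nat.zero_le _
      calc ∑ i : Fin k, (walks s c b t (x + s i) + walks s c b t (x - s i))
          ≤ ∑ _i : Fin k, ((2 * k) ^ t + (2 * k) ^ t) :=
            Finset.sum_le_sum (fun i _ => Nat.add_le_add (h1 _) (h1 _))
        _ = (2 * k) ^ (t + 1) := by
            rw [Finset.sum_const, Finset.card_univ, Fintype.card_fin, smul_eq_mul]; ring
    · rw [if_neg hx, if_neg hx]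

theorem avoid_one (k : ℕ) : avoid k 1 = 2 * k := by
  show ∑ i : Fin k, (walks un (off k) true 0 (un i) + walks un (off k) true 0 (-un i)) = 2 * k
  have h : ∀ i : Fin k, walks un (off k) true 0 (un i) + walks un (off k) true 0 (-un i) = 2 := by
    intro i
    have h1 : (un i : Fin k → ℤ) ≠ 0 := by
      intro h
      have := congrFun h i
      simp [un] at this
    have h2 : (-un i : Fin k → ℤ) ≠ 0 := neg_ne_zero.mpr h1
    simp [walks, off, h1]
  rw [Finset.sum_congr rfl (fun i _ => h i)]
  simp
  ring

theorem rng_ge (k t : ℕ) (hk : 0 < k) (ht : 1 ≤ t) : 2 ≤ rng k t := by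
  unfold rng
  have h1 : ∑ s ∈ Finset.range 2, (avoid k s : ℝ) / (2 * k : ℝ) ^ s ≤
      ∑ s ∈ Finset.range (t + 1), (avoid k s : ℝ) / (2 * k : ℝ) ^ s := by
    apply Finset.sum_le_sum_of_subset_of_nonneg
    · intro a ha
      rw [Finset.mem_range] at ha ⊢
      omega
    · intro i _ _
      positivity
  refine le_trans (le_of_eq ?_) h1
  rw [Finset.sum_range_succ, Finset.sum_range_one, avoid_one]
  have hk' : (k : ℝ) ≠ 0 := by positivity
  simp only [avoid]
  push_cast
  field_simp
  norm_num

theorem cr2 (hDFN : T_DFN) (hDFS : T_DFS) (hDEF : T_DEF) (hPCK : T_PCK) (hIN2 : T_IN2)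
    (hDNS : T_DNS) : T_CR2 := by
  intro k t A x y hk ht hA0 hA hxy
  classical
  have hk0 : 0 < k := by omega
  have hE : 2 ≤ rng k t := rng_ge k t hk0 (by omega)
  have hK : (1 : ℝ) ≤ (2 * k : ℝ) ^ t := by
    apply one_le_pow₀
    have : (2 : ℝ) ≤ k := by exact_mod_cast hk
    linarith
  have hcard : 1 ≤ A.card := Finset.card_pos.mpr ⟨0, hA0⟩
  have ha : (0 : ℝ) ≤ (A.card : ℝ) - 1 := by
    have : (1 : ℝ) ≤ A.card := by exact_mod_cast hcard
    linarith
  obtain ⟨K, hKd⟩ : ∃ K : ℝ, K = (2 * k : ℝ) ^ t := ⟨_, rfl⟩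
  obtain ⟨a, had⟩ : ∃ a : ℝ, a = (A.card : ℝ) - 1 := ⟨_, rfl⟩
  obtain ⟨E, hEd⟩ : ∃ E : ℝ, E = rng k t - 1 := ⟨_, rfl⟩
  rw [← hKd] at hK
  rw [← had] at ha
  have hE1 : 1 ≤ E := by rw [hEd]; linarith
  have hp : 0 ≤ K * E - 1 := by nlinarith
  rw [← hKd, ← had, ← hEd]
  have key := hIN2 k t t (a * K) (a * (K * E - 1)) (a * (K * E - 1) + a * K - 1) hk0
    (mul_nonneg ha (by linarith)) (mul_nonneg ha hp) ?_ x y hxy
  · nlinarith [key]
  · intro n c hn
    obtain ⟨d1, d2, d3, d4⟩ := hDNS k (n + 3) t c hk0
    -- pointwise inequality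
    have hpt : ∀ z : Tor k (n + 3), c z = true →
        K - (walks e c true t z : ℝ) ≤ K * (if Good c t z then 1 else 0) + K * df c t z := by
      intro z hz
      have hdf := hDFN k (n + 3) t c z hk0 (by omega) hz
      have hw : (0 : ℝ) ≤ walks e c true t z := Nat.cast_nonneg _
      have hwle : walks e c true t z ≤ (2 * k) ^ t := by
        have := walks_le e c true t z
        rwa [if_pos hz] at this
      by_cases hg : Good c t z
      · rw [if_pos hg]
        nlinarith
      · rw [if_neg hg]
        by_cases hw1 : walks e c true t z < (2 * k) ^ t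
        · have h1 := hDEF k (n + 3) t c z hk ht (by omega) hz hw1 hg
          nlinarith
        · have h2 : walks e c true t z = (2 * k) ^ t := le_antisymm hwle (not_lt.mp hw1)
          have h3 : (walks e c true t z : ℝ) = K := by
            rw [h2, hKd]; push_cast; ring
          rw [h3]
          nlinarith
    -- sum over red
    have hs1 : ∑ z, (if c z = true then (K - (walks e c true t z : ℝ)) else 0) ≤
        ∑ z, (if c z = true then (K * (if Good c t z then 1 else 0) + K * df c t z) else 0) := by
      apply Finset.sum_le_sum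
      intro z _
      by_cases hz : c z = true
      · rw [if_pos hz, if_pos hz]; exact hpt z hz
      · rw [if_neg hz, if_neg hz]
    have hs2 : ∑ z, (if c z = true then (K - (walks e c true t z : ℝ)) else 0) =
        K * size c true - total c true t := by
      have : ∀ z, (if c z = true then (K - (walks e c true t z : ℝ)) else 0) =
          K * (if c z = true then 1 else 0) - (walks e c true t z : ℝ) := by
        intro z
        by_cases hz : c z = true
        · rw [if_pos hz, if_pos hz]; ring
        · have h0 : walks e c true t z = 0 := by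
            have := walks_le e c true t z
            rw [if_neg hz] at this
            omega
          rw [if_neg hz, if_neg hz, h0]; simp
      rw [Finset.sum_congr rfl (fun z _ => this z), Finset.sum_sub_distrib, ← Finset.mul_sum]
      unfold size total
      rw [Finset.sum_boole]
      push_cast
      ring
    have hs3 : ∑ z, (if c z = true then (K * (if Good c t z then 1 else 0) + K * df c t z) else 0) =
        K * (Set.ncard {z | Good c t z} : ℝ) + K * ∑ z, (if c z = true then df c t z else 0) := by
      have : ∀ z, (if c z = true then (K * (if Good c t z then 1 else 0) + K * df c t z) else 0) =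
          K * (if Good c t z then 1 else 0) + K * (if c z = true then df c t z else 0) := by
        intro z
        by_cases hz : c z = true
        · rw [if_pos hz, if_pos hz]
        · have hg : ¬ Good c t z := fun h => hz h.1
          rw [if_neg hz, if_neg hz, if_neg hg]; ring
      rw [Finset.sum_congr rfl (fun z _ => this z), Finset.sum_add_distrib, ← Finset.mul_sum,
        ← Finset.mul_sum, Finset.sum_boole]
      have h5 : {z | Good c t z} = ((Finset.univ.filter (fun z => Good c t z)) : Set (Tor k (n + 3))) := by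
        ext z; simp
      rw [h5, Set.ncard_coe_finset]
    have hs4 := hDFS k (n + 3) t c hk0 (by omega)
    have hs5 := hPCK k (n + 3) t c A (by omega) hA0 hA
    have hs6 : a * (Set.ncard {z | Good c t z} : ℝ) ≤ size c false := by
      have h6 : (((A.card - 1) * Set.ncard {z | Good c t z} : ℕ) : ℝ) ≤ size c false := by
        exact_mod_cast hs5
      rw [Nat.cast_mul, Nat.cast_sub hcard, Nat.cast_one] at h6
      rw [had]; exact h6
    rw [hs2, hs3, hs4, ← hEd, ← hKd] at hs1
    obtain ⟨G, hG⟩ : ∃ G : ℝ, G = (Set.ncard {z | Good c t z} : ℝ) := ⟨_, rfl⟩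
    rw [← hG] at hs1 hs6
    have e1 := d2 true
    have e2 := d2 false
    have e3 := d3 true
    have e4 := d3 false
    rw [← hKd] at e3 e4
    obtain ⟨V, hV⟩ : ∃ V : ℝ, V = ((n + 3 : ℕ) : ℝ) ^ k := ⟨_, rfl⟩
    rw [← hV] at e1 e2 e3 e4
    have hVpos : 0 < V := by rw [hV]; positivity
    rw [e1, e2, e3, e4] at hs1
    rw [e2] at hs6
    have hdt : dens c true = 1 - dens c false := by linarith
    rw [hdt] at hs1
    obtain ⟨d, hd⟩ : ∃ d : ℝ, d = dens c false := ⟨_, rfl⟩
    obtain ⟨mR, hmR⟩ : ∃ d : ℝ, d = mono c true t := ⟨_, rfl⟩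
    obtain ⟨mB, hmB⟩ : ∃ d : ℝ, d = mono c false t := ⟨_, rfl⟩
    rw [← hd, ← hmR, ← hmB] at hs1 ⊢
    rw [← hd] at hs6
    -- hs1 : K * ((1 - d) * V) - mR * (V * K) ≤ K * G + K * (E * (K * ((1-d) * V) - mR * (V*K)) - (K*(d*V) - mB*(V*K)))
    have hKpos : 0 < K := by linarith
    have f1 : V * ((1 - d) - mR) ≤ G + V * K * (E * ((1 - d) - mR) - (d - mB)) := by
      have : K * (V * ((1 - d) - mR)) ≤ K * (G + V * K * (E * ((1 - d) - mR) - (d - mB))) := by
        nlinarith [hs1]
      exact le_of_mul_le_mul_left this hKpos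
    have f2 : a * (V * ((1 - d) - mR)) ≤ d * V + a * (V * K * (E * ((1 - d) - mR) - (d - mB))) := by
      have := mul_le_mul_of_nonneg_left f1 ha
      rw [mul_add] at this
      linarith
    have f3 : V * ((a * (K * E - 1) + a * K - 1) * d) ≤
        V * (a * K * mB + a * (K * E - 1) * (1 - mR)) := by
      nlinarith [f2]
    exact le_of_mul_le_mul_left f3 hVpos

end Pool.Agent.H32.TE
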