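import Pool.Agent.H43.TC.Targets2
import Pool.Agent.H20.TC.HOM
import Pool.Agent.H32.TE.CR2

/-! The defect of a red vertex that is not good (MP_183c3b_co). -/

set_option autoImplicit false

namespace Pool.Agent.H32.TE

open Pool.Agent.H43.TC Finset

theorem pr_un {k n : ℕ} (i : Fin k) : (pr (un i) : Tor k n) = e i := by
  funext j
  show (((un i : Fin k → ℤ) j : ℤ) : ZMod n) = (e i : Tor k n) j
  unfold un e
  by_cases h : j = i
  · subst h; simp
  · simp [h]

theorem trans_walks {G : Type} [AddCommGroup G] {k : ℕ} (s : Fin k → G) (c : G → Bool) (b : Bool)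
    (x : G) : ∀ (t : ℕ) (y : G), walks s (fun z => c (x + z)) b t y = walks s c b t (x + y) := by
  intro t
  induction t with
  | zero => intro y; rfl
  | succ t ih =>
    intro y
    rw [walks, walks]
    have h : ∀ i : Fin k, walks s (fun z => c (x + z)) b t (y + s i) +
        walks s (fun z => c (x + z)) b t (y - s i) =
        walks s c b t (x + y + s i) + walks s c b t (x + y - s i) := by
      intro i
      rw [ih, ih, add_assoc, add_sub_assoc]
    rw [Finset.sum_congr rfl (fun i _ => h i)]

theorem pull {k n : ℕ} (c : Tor k n → Bool) (b : Bool) (x : Tor k n) (j : ℕ) (v : Fin k → ℤ) :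
    walks e c b j (x + pr v) = walks un (fun z => c (x + pr z)) b j v := by
  have h := Pool.Agent.H20.TC.hom (Fin k → ℤ) (Tor k n) k un pr (fun y => c (x + y)) b j v
  have h2 : (fun i => (pr (un i) : Tor k n)) = e := by funext i; exact pr_un i
  rw [h2, trans_walks] at h
  exact h.symm

theorem full_step {G : Type} [AddCommGroup G] {k : ℕ} (s : Fin k → G) (c : G → Bool) (b : Bool)
    (hk : 0 < k) (t : ℕ) (y : G) (h : walks s c b (t + 1) y = (2 * k) ^ (t + 1)) (i : Fin k) :
    walks s c b t (y + s i) = (2 * k) ^ t ∧ walks s c b t (y - s i) = (2 * k) ^ t := by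
  have hpos : 0 < (2 * k) ^ (t + 1) := by positivity
  have hy : c y = b := by
    by_contra hne
    have := walks_le s c b (t + 1) y
    rw [if_neg hne] at this
    omega
  rw [walks, if_pos hy] at h
  have hle : ∀ z, walks s c b t z ≤ (2 * k) ^ t := by
    intro z
    refine (walks_le s c b t z).trans ?_
    split_ifs
    · exact le_rfl
    · exact Nat.zero_le _
  have h2 : ∑ i : Fin k, (walks s c b t (y + s i) + walks s c b t (y - s i)) =
      ∑ _i : Fin k, ((2 * k) ^ t + (2 * k) ^ t) := by
    rw [h, Finset.sum_const, Finset.card_univ, Fintype.card_fin, smul_eq_mul]; ring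
  have h3 := (Finset.sum_eq_sum_iff_of_le (fun i _ => Nat.add_le_add (hle (y + s i))
    (hle (y - s i)))).mp h2 i (Finset.mem_univ _)
  have h4 := hle (y + s i)
  have h5 := hle (y - s i)
  omega

theorem full_col {G : Type} [AddCommGroup G] {k : ℕ} (s : Fin k → G) (c : G → Bool) (b : Bool)
    (hk : 0 < k) (t : ℕ) (y : G) (h : walks s c b t y = (2 * k) ^ t) : c y = b := by
  by_contra hne
  have := walks_le s c b t y
  rw [if_neg hne] at this
  have hpos : 0 < (2 * k) ^ t := by positivity
  omega

theorem nrm_sub {k : ℕ} (z : Fin k → ℤ) (i : Fin k) (h : 0 < z i) :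
    nrm (z - un i) = nrm z - 1 := by
  have h1 : nrm z - nrm (z - un i) = 1 := by
    unfold nrm
    rw [← Finset.sum_sub_distrib]
    rw [Finset.sum_eq_single i]
    · simp only [Pi.sub_apply, un, Pi.single_eq_same]
      rw [abs_of_pos h, abs_of_nonneg (by omega)]
      ring
    · intro j _ hj
      simp [un, hj]
    · intro hi
      exact absurd (Finset.mem_univ _) hi
  linarith

theorem nrm_add {k : ℕ} (z : Fin k → ℤ) (i : Fin k) (h : z i < 0) :
    nrm (z + un i) = nrm z - 1 := by
  have h1 : nrm z - nrm (z + un i) = 1 := by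
    unfold nrm
    rw [← Finset.sum_sub_distrib]
    rw [Finset.sum_eq_single i]
    · simp only [Pi.add_apply, un, Pi.single_eq_same]
      rw [abs_of_neg h, abs_of_nonpos (by omega)]
      ring
    · intro j _ hj
      simp [un, hj]
    · intro hi
      exact absurd (Finset.mem_univ _) hi
  linarith

theorem nrm_nonneg {k : ℕ} (z : Fin k → ℤ) : 0 ≤ nrm z :=
  Finset.sum_nonneg (fun i _ => abs_nonneg _)

theorem un_ne {k : ℕ} (i : Fin k) : (un i : Fin k → ℤ) ≠ 0 := by
  intro h
  have := congrFun h i
  simp [un] at this

/-- the combinatorial core in `ℤ^k` -/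
theorem core (hMNW : T_MNW) {k t : ℕ} (hk : 2 ≤ k) (ht : 2 ≤ t) (c : (Fin k → ℤ) → Bool)
    (h0 : c 0 = true) (hb : ∃ i, c (un i) = false ∨ c (-un i) = false)
    (hE : ∀ i, ∀ j < t, (c (un i) = false →
        walks un c false j (un i) = walks un (off k) true j (un i)) ∧
      (c (-un i) = false → walks un c false j (-un i) = walks un (off k) true j (-un i)))
    (hR : ∀ u, (∃ i, u = un i ∨ u = -un i) → c u = true → ∀ i, c (u + un i) = true ∧
      c (u - un i) = true) :
    ∀ z, z ≠ 0 → nrm z ≤ t → c z = false := by
  obtain ⟨m1, m2, m3⟩ := hMNW k c (by omega) h0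
  have hoff : ∀ z : Fin k → ℤ, z ≠ 0 → off k z = true := by
    intro z hz; simp [off, hz]
  have hP0 : ∀ z : Fin k → ℤ, z ≠ 0 → walks un c false 0 z = walks un (off k) true 0 z →
      c z = false := by
    intro z hz h
    exact m2 0 z hz h
  have hE' : ∀ i u, (u = un i ∨ u = -un i) → c u = false → ∀ j < t,
      walks un c false j u = walks un (off k) true j u := by
    intro i u hu hc j hj
    rcases hu with rfl | rfl
    · exact (hE i j hj).1 hc
    · exact (hE i j hj).2 hc
  have hne0 : ∀ i (u : Fin k → ℤ), (u = un i ∨ u = -un i) → u ≠ 0 := by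
    intro i u hu
    rcases hu with rfl | rfl
    · exact un_ne i
    · exact neg_ne_zero.mpr (un_ne i)
  have L1 : ∀ i u, (u = un i ∨ u = -un i) → c u = false → ∀ i2 w, (w = un i2 ∨ w = -un i2) →
      i2 ≠ i → c w = false := by
    intro i u hu hc i2 w hw hi
    have hP1 := hE' i u hu hc 1 (by omega)
    obtain ⟨p1, p2⟩ := m3 0 u (hne0 i u hu) hP1 i2
    have hne : u + w ≠ 0 := by
      intro h
      have := congrFun h i2
      rcases hu with rfl | rfl <;> rcases hw with rfl | rfl <;>
        simp [un, Pi.single_apply, hi] at this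
    have huw : c (u + w) = false := by
      apply hP0 _ hne
      rcases hw with rfl | rfl
      · exact p1
      · rw [← sub_eq_add_neg]; exact p2
    by_contra hcw
    have hcw' : c w = true := by
      cases hh : c w
      · exact absurd hh hcw
      · rfl
    have hr := hR w ⟨i2, hw⟩ hcw' i
    have : c (w + u) = true := by
      rcases hu with rfl | rfl
      · exact hr.1
      · rw [← sub_eq_add_neg]; exact hr.2
    rw [add_comm, huw] at this
    exact absurd this (by decide)
  have hall : ∀ i3 u3, (u3 = un i3 ∨ u3 = -un i3) → c u3 = false := by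
    obtain ⟨i, hi⟩ := hb
    obtain ⟨u, hu, hcu⟩ : ∃ u : Fin k → ℤ, (u = un i ∨ u = -un i) ∧ c u = false := by
      rcases hi with h | h
      · exact ⟨_, Or.inl rfl, h⟩
      · exact ⟨_, Or.inr rfl, h⟩
    obtain ⟨i2, hi2⟩ : ∃ i2 : Fin k, i2 ≠ i := by
      haveI : Nontrivial (Fin k) := Fin.nontrivial_iff_two_le.mpr hk
      exact exists_ne i
    intro i3 u3 hu3
    by_cases h3 : i3 = i2
    · exact L1 i u hu hcu i3 u3 hu3 (by rw [h3]; exact hi2)
    · have h4 := L1 i u hu hcu i2 (un i2) (Or.inl rfl) hi2
      exact L1 i2 (un i2) (Or.inl rfl) h4 i3 u3 hu3 h3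
  have hZ : ∀ m : ℕ, ∀ z : Fin k → ℤ, z ≠ 0 → nrm z = m → ∀ j, j + m ≤ t →
      walks un c false j z = walks un (off k) true j z := by
    intro m
    induction m with
    | zero =>
      intro z hz hn j hj
      exfalso
      apply hz
      funext i
      have h1 : |z i| ≤ nrm z := Finset.single_le_sum (f := fun i => |z i|)
        (fun i _ => abs_nonneg _) (Finset.mem_univ i)
      rw [hn] at h1
      simpa using h1
    | succ m ih =>
      intro z hz hn j hj
      obtain ⟨i, hi⟩ : ∃ i, z i ≠ 0 := by
        by_contra hcon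
        push Not at hcon
        exact hz (funext hcon)
      rcases lt_or_gt_of_ne hi with hneg | hpos
      · -- z i < 0
        have hnn := nrm_add z i hneg
        by_cases hz1 : z + un i = 0
        · have hzz : z = -un i := by rw [eq_neg_iff_add_eq_zero]; exact hz1
          exact hE' i z (Or.inr hzz) (hall i z (Or.inr hzz)) j (by omega)
        · have h1 := ih (z + un i) hz1 (by rw [hnn, hn]; push_cast; ring) (j + 1) (by omega)
          have h2 := (m3 j (z + un i) hz1 h1 i).2
          rwa [add_sub_cancel_right] at h2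
      · have hnn := nrm_sub z i hpos
        by_cases hz1 : z - un i = 0
        · have hzz : z = un i := sub_eq_zero.mp hz1
          exact hE' i z (Or.inl hzz) (hall i z (Or.inl hzz)) j (by omega)
        · have h1 := ih (z - un i) hz1 (by rw [hnn, hn]; push_cast; ring) (j + 1) (by omega)
          have h2 := (m3 j (z - un i) hz1 h1 i).1
          rwa [sub_add_cancel] at h2
  intro z hz hn
  have h1 := nrm_nonneg z
  obtain ⟨m, hm⟩ := Int.eq_ofNat_of_zero_le h1
  exact hP0 z hz (hZ m z hz hm 0 (by omega))

theorem def2 (hSYA : T_SYA) (hMNW : T_MNW) (hHBD : T_HBD) (hNXB : T_NXB) : T_DEF := by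
  intro k n t c x hk ht _ hx hw hg
  have hk0 : 0 < k := by omega
  obtain ⟨t', rfl⟩ : ∃ t', t = t' + 1 := ⟨t - 1, by omega⟩
  obtain ⟨i0⟩ : Nonempty (Fin k) := ⟨⟨0, hk0⟩⟩
  obtain ⟨nu, hnu⟩ : ∃ nu : ℕ → ℕ, ∀ j, nu j = walks un (off k) true j (un i0) :=
    ⟨fun j => walks un (off k) true j (un i0), fun j => rfl⟩
  have hav : ∀ j, avoid k (j + 1) = 2 * k * nu j := by
    intro j; rw [hnu]; exact ((hSYA k j i0).1).symm
  have hnu1 : ∀ j (i : Fin k), walks un (off k) true j (un i) = nu j := by
    intro j i
    have h := (hSYA k j i).1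
    rw [hav j] at h
    exact Nat.eq_of_mul_eq_mul_left (by positivity) h
  have hnu2 : ∀ j (i : Fin k), walks un (off k) true j (-un i) = nu j := by
    intro j i
    have h := (hSYA k j i).2
    rw [hav j] at h
    exact Nat.eq_of_mul_eq_mul_left (by positivity) h
  have hnu0 : nu 0 = 1 := by
    rw [hnu]
    have := un_ne i0
    simp [walks, off, this]
  obtain ⟨b, hb⟩ : ∃ b : ℕ, b = blu e c x := ⟨_, rfl⟩
  obtain ⟨W, hW⟩ : ∃ W : ℕ, W = walks e c true (t' + 1) x := ⟨_, rfl⟩
  have h1 := hHBD (Tor k n) k e c t' x
  rw [← hW, ← hb] at h1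
  rw [← hW] at hw
  have hnx : ∀ j, nxt e c j x ≤ b * nu j := by
    intro j
    have h := hNXB k n c x hk0 hx j
    rw [← hb, hav j] at h
    have h' : 2 * k * nxt e c j x ≤ 2 * k * (b * nu j) := by
      refine h.trans (le_of_eq ?_); ring
    exact Nat.le_of_mul_le_mul_left h' (by positivity)
  have hkr : (0 : ℝ) < 2 * k := by positivity
  have hk1 : (1 : ℝ) ≤ 2 * k := by
    have : (2 : ℝ) ≤ k := by exact_mod_cast hk
    linarith
  have hrng : rng k (t' + 1) - 1 = ∑ j ∈ Finset.range (t' + 1), (nu j : ℝ) / (2 * k : ℝ) ^ j := by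
    unfold rng
    rw [Finset.sum_range_succ']
    have h3 : (avoid k 0 : ℝ) / (2 * k : ℝ) ^ 0 = 1 := by simp [avoid]
    rw [h3, add_sub_cancel_right]
    apply Finset.sum_congr rfl
    intro j _
    rw [hav j, pow_succ]
    push_cast
    rw [mul_comm ((2 * (k : ℝ)) ^ j), mul_div_mul_left _ _ hkr.ne']
  have hdf : df c (t' + 1) x = ∑ j ∈ Finset.range (t' + 1),
      (((2 * k : ℝ) ^ (t' + 1) - W) * ((nu j : ℝ) / (2 * k : ℝ) ^ j) -
        (2 * k : ℝ) ^ (t' - j) * nxt e c j x) := by
    unfold df
    rw [hrng, ← hW, Finset.sum_sub_distrib, ← Finset.mul_sum, mul_comm]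
    simp only [Nat.add_sub_cancel]
  have hpw : ∀ j ∈ Finset.range (t' + 1), (2 * k : ℝ) ^ t' / (2 * k : ℝ) ^ j =
      (2 * k : ℝ) ^ (t' - j) := by
    intro j hj
    rw [Finset.mem_range] at hj
    rw [div_eq_iff (by positivity), ← pow_add]
    congr 1
    omega
  rw [hdf]
  by_cases hA : (2 * k) ^ t' * b + 1 + W ≤ (2 * k) ^ (t' + 1)
  · -- case A
    have hA' : (2 * k : ℝ) ^ t' * b + 1 ≤ (2 * k : ℝ) ^ (t' + 1) - W := by
      have : (((2 * k) ^ t' * b + 1 + W : ℕ) : ℝ) ≤ (((2 * k) ^ (t' + 1) : ℕ) : ℝ) := by
        exact_mod_cast hA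
      push_cast at this
      linarith
    have hterm : ∀ j ∈ Finset.range (t' + 1), (nu j : ℝ) / (2 * k : ℝ) ^ j ≤
        ((2 * k : ℝ) ^ (t' + 1) - W) * ((nu j : ℝ) / (2 * k : ℝ) ^ j) -
        (2 * k : ℝ) ^ (t' - j) * nxt e c j x := by
      intro j hj
      have e1 : (nxt e c j x : ℝ) ≤ b * nu j := by exact_mod_cast hnx j
      have e2 : (0 : ℝ) ≤ (nu j : ℝ) / (2 * k : ℝ) ^ j := by positivity
      have e3 := mul_le_mul_of_nonneg_right hA' e2
      have e4 : (2 * k : ℝ) ^ (t' - j) * nxt e c j x ≤ (2 * k : ℝ) ^ (t' - j) * (b * nu j) :=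
        mul_le_mul_of_nonneg_left e1 (by positivity)
      rw [← hpw j hj] at e4 ⊢
      have e5 : (2 * k : ℝ) ^ t' / (2 * k : ℝ) ^ j * (b * nu j) =
          (2 * k : ℝ) ^ t' * b * ((nu j : ℝ) / (2 * k : ℝ) ^ j) := by ring
      linarith
    refine le_trans ?_ (Finset.sum_le_sum hterm)
    have h5 : (nu 0 : ℝ) / (2 * k : ℝ) ^ 0 ≤ ∑ j ∈ Finset.range (t' + 1),
        (nu j : ℝ) / (2 * k : ℝ) ^ j :=
      Finset.single_le_sum (f := fun j => (nu j : ℝ) / (2 * k : ℝ) ^ j)
        (fun j _ => by positivity) (Finset.mem_range.mpr (Nat.succ_pos _))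
    rw [hnu0] at h5
    simpa using h5
  · have hB : W + (2 * k) ^ t' * b = (2 * k) ^ (t' + 1) := by omega
    have hB' : (2 * k : ℝ) ^ (t' + 1) - W = (2 * k : ℝ) ^ t' * b := by
      have : ((W + (2 * k) ^ t' * b : ℕ) : ℝ) = (((2 * k) ^ (t' + 1) : ℕ) : ℝ) := by rw [hB]
      push_cast at this
      linarith
    have hterm : ∀ j ∈ Finset.range (t' + 1),
        ((2 * k : ℝ) ^ (t' + 1) - W) * ((nu j : ℝ) / (2 * k : ℝ) ^ j) -
        (2 * k : ℝ) ^ (t' - j) * nxt e c j x =
        (2 * k : ℝ) ^ (t' - j) * (b * nu j - nxt e c j x) := by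
      intro j hj
      rw [hB', ← hpw j hj]
      ring
    rw [Finset.sum_congr rfl hterm]
    have hnonneg : ∀ j ∈ Finset.range (t' + 1),
        0 ≤ (2 * k : ℝ) ^ (t' - j) * (b * nu j - nxt e c j x) := by
      intro j _
      have e1 : (nxt e c j x : ℝ) ≤ b * nu j := by exact_mod_cast hnx j
      exact mul_nonneg (by positivity) (by linarith)
    by_cases hC : ∃ j ∈ Finset.range (t' + 1), nxt e c j x < b * nu j
    · obtain ⟨j, hj, hlt⟩ := hC
      refine le_trans ?_ (Finset.single_le_sum hnonneg hj)
      have e1 : (nxt e c j x : ℝ) + 1 ≤ b * nu j := by exact_mod_cast hlt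
      have e2 : (1 : ℝ) ≤ (2 * k : ℝ) ^ (t' - j) := one_le_pow₀ hk1
      nlinarith
    · exfalso
      push Not at hC
      have hEq : ∀ j, j < t' + 1 → nxt e c j x = b * nu j := by
        intro j hj
        exact le_antisymm (hnx j) (hC j (Finset.mem_range.mpr hj))
      apply hg
      refine ⟨hx, ?_⟩
      obtain ⟨c1, hc1⟩ : ∃ c1 : (Fin k → ℤ) → Bool, ∀ z, c1 z = c (x + pr z) := ⟨_, fun z => rfl⟩
      have hpull : ∀ (bb : Bool) (j : ℕ) (v : Fin k → ℤ),
          walks e c bb j (x + pr v) = walks un c1 bb j v := by
        intro bb j v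
        rw [pull]
        congr 1
        funext z
        exact (hc1 z).symm
      have hc10 : c1 0 = true := by rw [hc1, map_zero, add_zero]; exact hx
      have hm1 := (hMNW k c1 hk0 hc10).1
      have hpe : ∀ i : Fin k, x + e i = x + pr (un i) := fun i => by rw [pr_un]
      have hme : ∀ i : Fin k, x - e i = x + pr (-un i) := fun i => by
        rw [map_neg, pr_un, sub_eq_add_neg]
      have hbb : b = ∑ i : Fin k, ((if c1 (un i) = false then 1 else 0) +
          (if c1 (-un i) = false then 1 else 0)) := by
        rw [hb]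
        unfold blu
        apply Finset.sum_congr rfl
        intro i _
        rw [hpe, hme, hc1, hc1]
      have hE : ∀ i, ∀ j < t' + 1, (c1 (un i) = false →
          walks un c1 false j (un i) = walks un (off k) true j (un i)) ∧
          (c1 (-un i) = false →
            walks un c1 false j (-un i) = walks un (off k) true j (-un i)) := by
        intro i j hj
        have e1 := hEq j hj
        rw [hbb, Finset.sum_mul] at e1
        unfold nxt at e1
        have e2 : ∀ i : Fin k, walks e c false j (x + e i) + walks e c false j (x - e i) ≤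
            ((if c1 (un i) = false then 1 else 0) +
              (if c1 (-un i) = false then 1 else 0)) * nu j := by
          intro i
          rw [hpe, hme, hpull, hpull, add_mul]
          apply Nat.add_le_add
          · by_cases hh : c1 (un i) = false
            · rw [if_pos hh, one_mul, ← hnu1 j i]; exact hm1 j _
            · have := walks_le un c1 false j (un i)
              rw [if_neg hh] at this
              rw [if_neg hh]; omega
          · by_cases hh : c1 (-un i) = false
            · rw [if_pos hh, one_mul, ← hnu2 j i]; exact hm1 j _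
            · have := walks_le un c1 false j (-un i)
              rw [if_neg hh] at this
              rw [if_neg hh]; omega
        have e3 := (Finset.sum_eq_sum_iff_of_le (fun i _ => e2 i)).mp e1 i (Finset.mem_univ _)
        rw [hpe, hme, hpull, hpull, add_mul] at e3
        have f1 := hm1 j (un i)
        have f2 := hm1 j (-un i)
        have g1 := walks_le un c1 false j (un i)
        have g2 := walks_le un c1 false j (-un i)
        rw [hnu1] at f1 ⊢
        rw [hnu2] at f2 ⊢
        constructor
        · intro hh
          by_cases hh2 : c1 (-un i) = false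
          · rw [if_pos hh, if_pos hh2] at e3; omega
          · rw [if_neg hh2] at g2
            rw [if_pos hh, if_neg hh2] at e3; omega
        · intro hh2
          by_cases hh : c1 (un i) = false
          · rw [if_pos hh, if_pos hh2] at e3; omega
          · rw [if_neg hh] at g1
            rw [if_neg hh, if_pos hh2] at e3; omega
      have hbpos : ∃ i, c1 (un i) = false ∨ c1 (-un i) = false := by
        by_contra hcon
        push Not at hcon
        have : b = 0 := by
          rw [hbb]
          apply Finset.sum_eq_zero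
          intro i _
          rw [if_neg (hcon i).1, if_neg (hcon i).2, add_zero]
        rw [this, mul_zero, add_zero] at hB
        omega
      have hR : ∀ u, (∃ i, u = un i ∨ u = -un i) → c1 u = true → ∀ i, c1 (u + un i) = true ∧
          c1 (u - un i) = true := by
        -- walks of the neighbours are full
        have hWs : W = ∑ i : Fin k, (walks un c1 true t' (un i) + walks un c1 true t' (-un i)) := by
          rw [hW, walks, if_pos hx]
          apply Finset.sum_congr rfl
          intro i _
          rw [hpe, hme, hpull, hpull]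
        have hsum : ∑ i : Fin k, (walks un c1 true t' (un i) + walks un c1 true t' (-un i)) =
            ∑ i : Fin k, ((if c1 (un i) = true then (2 * k) ^ t' else 0) +
              (if c1 (-un i) = true then (2 * k) ^ t' else 0)) := by
          rw [← hWs]
          have h6 : ∑ i : Fin k, ((if c1 (un i) = true then (2 * k) ^ t' else 0) +
              (if c1 (-un i) = true then (2 * k) ^ t' else 0)) + (2 * k) ^ t' * b =
              (2 * k) ^ (t' + 1) := by
            rw [hbb, Finset.mul_sum, ← Finset.sum_add_distrib]
            have h7 : ∀ i : Fin k, ((if c1 (un i) = true then (2 * k) ^ t' else 0) +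
                (if c1 (-un i) = true then (2 * k) ^ t' else 0)) +
                (2 * k) ^ t' * ((if c1 (un i) = false then 1 else 0) +
                  (if c1 (-un i) = false then 1 else 0)) = (2 * k) ^ t' + (2 * k) ^ t' := by
              intro i
              by_cases q1 : c1 (un i) = true
              · have q1' : ¬ c1 (un i) = false := by rw [q1]; decide
                by_cases q2 : c1 (-un i) = true
                · have q2' : ¬ c1 (-un i) = false := by rw [q2]; decide
                  rw [if_pos q1, if_pos q2, if_neg q1', if_neg q2']; ring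
                · have q2' : c1 (-un i) = false := by
                    cases hh : c1 (-un i)
                    · rfl
                    · exact absurd hh q2
                  rw [if_pos q1, if_neg q2, if_neg q1', if_pos q2']; ring
              · have q1' : c1 (un i) = false := by
                  cases hh : c1 (un i)
                  · rfl
                  · exact absurd hh q1
                by_cases q2 : c1 (-un i) = true
                · have q2' : ¬ c1 (-un i) = false := by rw [q2]; decide
                  rw [if_neg q1, if_pos q2, if_pos q1', if_neg q2']; ring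
                · have q2' : c1 (-un i) = false := by
                    cases hh : c1 (-un i)
                    · rfl
                    · exact absurd hh q2
                  rw [if_neg q1, if_neg q2, if_pos q1', if_pos q2']; ring
            rw [Finset.sum_congr rfl (fun i _ => h7 i), Finset.sum_const, Finset.card_univ,
              Fintype.card_fin, smul_eq_mul]
            ring
          omega
        have hle : ∀ i : Fin k, walks un c1 true t' (un i) + walks un c1 true t' (-un i) ≤
            (if c1 (un i) = true then (2 * k) ^ t' else 0) +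
              (if c1 (-un i) = true then (2 * k) ^ t' else 0) :=
          fun i => Nat.add_le_add (walks_le _ _ _ _ _) (walks_le _ _ _ _ _)
        have hfull : ∀ u, (∃ i, u = un i ∨ u = -un i) → c1 u = true →
            walks un c1 true t' u = (2 * k) ^ t' := by
          rintro u ⟨i, hu⟩ hcu
          have e3 := (Finset.sum_eq_sum_iff_of_le (fun i _ => hle i)).mp hsum i (Finset.mem_univ _)
          have g1 := walks_le un c1 true t' (un i)
          have g2 := walks_le un c1 true t' (-un i)
          rcases hu with rfl | rfl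
          · rw [if_pos hcu] at e3 g1
            omega
          · rw [if_pos hcu] at e3 g2
            omega
        intro u hu hcu i
        have h8 := hfull u hu hcu
        obtain ⟨t'', rfl⟩ : ∃ t'', t' = t'' + 1 := ⟨t' - 1, by omega⟩
        obtain ⟨h9, h10⟩ := full_step un c1 true hk0 t'' u h8 i
        exact ⟨full_col un c1 true hk0 t'' _ h9, full_col un c1 true hk0 t'' _ h10⟩
      intro z hz hn
      rw [← hc1]
      exact core hMNW hk ht c1 hc10 hbpos hE hR z hz hn

end Pool.Agent.H32.TE
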